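import Pool.Agent.Helper56.UN.St

/-! # Project UN, module IN: intersections. -/

set_option autoImplicit false

noncomputable section

namespace Helper34.UN

open Pool.Agent.Helper56.UN Pool.Agent.Helper71.UN
open Pool.Agent.Helper56.FM (Gq)

/-- Four elements of a field of degree at most three. -/
private theorem dep4 {β : ℂ} {p q r : ℚ}
    (hβ3 : β ^ 3 + (p : ℂ) * β ^ 2 + (q : ℂ) * β + (r : ℂ) = 0) (j k : ℤ) :
    ∃ g : Fin 4 → ℚ, (∃ i, g i ≠ 0) ∧
      (g 0 : ℂ) * β ^ j + g 1 * β ^ (j - 1) + g 2 * β ^ k + g 3 * β ^ (k - 1) = 0 := by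
  classical
  have hβ : β ∈ IntermediateField.adjoin ℚ {β} := IntermediateField.mem_adjoin_simple_self ℚ β
  set P : Polynomial ℚ := Polynomial.X ^ 3 + Polynomial.C p * Polynomial.X ^ 2 +
    Polynomial.C q * Polynomial.X + Polynomial.C r with hP
  have hmon : P.Monic := by
    rw [hP]
    monicity!
  have hint : IsIntegral ℚ β := by
    refine ⟨P, hmon, ?_⟩
    rw [hP]
    simp only [Polynomial.eval₂_add, Polynomial.eval₂_pow, Polynomial.eval₂_X, Polynomial.eval₂_mul,
      Polynomial.eval₂_C, eq_ratCast]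
    linear_combination hβ3
  have hdeg : (minpoly ℚ β).natDegree ≤ 3 := by
    have h1 : (minpoly ℚ β).degree ≤ P.degree := by
      refine minpoly.min ℚ β hmon ?_
      rw [hP]
      simp only [map_add, map_pow, map_mul, Polynomial.aeval_X, Polynomial.aeval_C, eq_ratCast]
      linear_combination hβ3
    have h2 := Polynomial.natDegree_le_natDegree h1
    have h3 : P.natDegree = 3 := by
      rw [hP]
      compute_degree!
    omega
  have hfin : Module.finrank ℚ (IntermediateField.adjoin ℚ {β}) ≤ 3 := by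
    rw [IntermediateField.adjoin.finrank hint]; exact hdeg
  have : FiniteDimensional ℚ (IntermediateField.adjoin ℚ {β}) :=
    IntermediateField.adjoin.finiteDimensional hint
  set v : Fin 4 → IntermediateField.adjoin ℚ {β} :=
    ![⟨β ^ j, zpow_mem hβ j⟩, ⟨β ^ (j - 1), zpow_mem hβ (j - 1)⟩, ⟨β ^ k, zpow_mem hβ k⟩,
      ⟨β ^ (k - 1), zpow_mem hβ (k - 1)⟩] with hv
  have hnot : ¬ LinearIndependent ℚ v := by
    intro h
    have := h.fintype_card_le_finrank
    rw [Fintype.card_fin] at this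
    omega
  obtain ⟨g, hg, i, hi⟩ := Fintype.not_linearIndependent_iff.1 hnot
  refine ⟨g, ⟨i, hi⟩, ?_⟩
  have h1 := congrArg (fun y : IntermediateField.adjoin ℚ {β} => (y : ℂ)) hg
  simp only [hv, Fin.sum_univ_four] at h1
  simpa [Rat.smul_def] using h1

private theorem zero_of {β : ℂ} (hβ : β.im ≠ 0) {x y : ℚ} (h : (x : ℂ) * β + (y : ℂ) = 0) :
    x = 0 ∧ y = 0 := by
  have h1 := congrArg Complex.im h
  have e1 : ((x : ℂ) * β + (y : ℂ)).im = (x : ℝ) * β.im := by
    have hx : (x : ℂ) = (((x : ℝ)) : ℂ) := by push_cast; rfl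
    have hy : (y : ℂ) = (((y : ℝ)) : ℂ) := by push_cast; rfl
    rw [hx, hy]
    simp
  rw [e1] at h1
  simp only [Complex.zero_im] at h1
  have h2 : (x : ℝ) = 0 := (mul_eq_zero.1 h1).resolve_right hβ
  have h3 : x = 0 := by exact_mod_cast h2
  subst h3
  refine ⟨rfl, ?_⟩
  have h4 : (y : ℂ) = 0 := by simpa using h
  exact_mod_cast h4

theorem m_IN : StIN := by
  intro β p q r t hc j k
  have hβ0 : β ≠ 0 := by
    rintro rfl
    exact hc.im (by simp)
  obtain ⟨g, ⟨i, hi⟩, hg⟩ := dep4 hc.cub j k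
  have ej : β ^ (j - 1) = β ^ j * β⁻¹ := zpow_sub_one₀ hβ0 j
  have ek : β ^ (k - 1) = β ^ k * β⁻¹ := zpow_sub_one₀ hβ0 k
  rw [ej, ek] at hg
  refine ⟨β ^ j * ((g 0 : ℂ) + (g 1 : ℂ) * β⁻¹), ?_, ⟨g 0, g 1, rfl⟩, ⟨-g 2, -g 3, ?_⟩⟩
  · intro h0
    have hzero : ∀ (l : ℤ) (x y : ℚ), β ^ l * ((x : ℂ) + (y : ℂ) * β⁻¹) = 0 → x = 0 ∧ y = 0 := by
      intro l x y h
      have h1 := (mul_eq_zero.1 h).resolve_left (zpow_ne_zero l hβ0)
      apply zero_of hc.im
      have h2 : ((x : ℂ) + (y : ℂ) * β⁻¹) * β = 0 := by rw [h1, zero_mul]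
      rw [add_mul, mul_assoc, inv_mul_cancel₀ hβ0, mul_one] at h2
      exact h2
    obtain ⟨h1, h2⟩ := hzero j _ _ h0
    have h3 : β ^ k * ((g 2 : ℂ) + (g 3 : ℂ) * β⁻¹) = 0 := by
      linear_combination hg - h0
    obtain ⟨h4, h5⟩ := hzero k _ _ h3
    apply hi
    fin_cases i
    · exact h1
    · exact h2
    · exact h4
    · exact h5
  · push_cast
    linear_combination hg

end Helper34.UN
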